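import Pool.Agent.Y993.HP.Stm

set_option autoImplicit false

namespace Pool.Agent.Y855.HP

open Finset Pool.Agent.Y993.HP

lemma lg_mono {d n N : ℕ} {u u' : Lab d n N} {X Y : Finset (Pt d n)} (hXY : X ⊆ Y)
    (hu : ∀ p ∈ X, ∀ i, u (i, p i) = u' (i, p i)) : lg u X ≤ lg u' Y := by
  classical
  unfold lg
  refine Finset.sup_mono ?_
  intro C hC
  simp only [Finset.mem_filter, Finset.mem_powerset] at hC ⊢
  refine ⟨hC.1.trans hXY, ?_⟩
  intro p hp q hq hpq
  have h1 := hu p (hC.1 hp)
  have h2 := hu q (hC.1 hq)
  simpa [← h1, ← h2] using hC.2 p hp q hq hpq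

lemma zz_mono {d n N : ℕ} (A : Finset (Pt d n)) (I : Fin d → Finset (Fin N)) (L : ℕ)
    (u : Lab d n N) (x : Fin d × Fin n) (a : Fin N) (hx : u x ∉ I x.1) :
    zz A I L u ≤ zz A I L (Function.update u x a) := by
  classical
  unfold zz
  refine min_le_min_right _ ?_
  have key : ∀ p ∈ pts A I u, ∀ i, u (i, p i) = Function.update u x a (i, p i) := by
    intro p hp i
    simp only [pts, Finset.mem_filter] at hp
    have hne : (i, p i) ≠ x := by
      rintro rfl
      exact hx (hp.2 i)
    rw [Function.update_of_ne hne]
  refine lg_mono ?_ key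
  intro p hp
  have hk := key p hp
  simp only [pts, Finset.mem_filter] at hp ⊢
  refine ⟨hp.1, fun i => ?_⟩
  rw [← hk i]
  exact hp.2 i

theorem naz (h : S_NA) : S_NAZ := by
  classical
  intro d n N L r A I hN hI
  have : Nonempty (Fin N) := ⟨⟨0, hN⟩⟩
  constructor
  · intro lam hlam
    have hk := h (Fin d × Fin n) (Fin N) (Fin r) (fun j x => I j x.1)
      (fun j u => Real.exp (lam * (zz A (I j) L u : ℝ)))
      (fun x j j' hj => hI x.1 j j' hj) (fun j u => (Real.exp_pos _).le)
      (fun j u x a hx => by
        refine Real.exp_le_exp.2 (mul_le_mul_of_nonneg_left ?_ hlam)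
        exact_mod_cast zz_mono A (I j) L u x a hx)
    refine le_trans (le_of_eq ?_) hk
    congr 1
    funext u
    rw [Finset.mul_sum, Real.exp_sum]
  · intro j j' hjj
    have := h (Fin d × Fin n) (Fin N) Bool (fun b x => if b then I j x.1 else I j' x.1)
      (fun b u => if b then (zz A (I j) L u : ℝ) else (zz A (I j') L u : ℝ))
      (by
        intro x b b' hb
        cases b <;> cases b'
        · exact absurd rfl hb
        · simpa using hI x.1 j' j hjj.symm
        · simpa using hI x.1 j j' hjj
        · exact absurd rfl hb)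
      (by
        intro b u
        cases b <;> simp)
      (by
        intro b u x a hx
        cases b
        · simp only [Bool.false_eq_true, if_false] at hx ⊢
          exact_mod_cast zz_mono A (I j') L u x a hx
        · simp only [if_true] at hx ⊢
          exact_mod_cast zz_mono A (I j) L u x a hx)
    simpa [Fintype.prod_bool] using this

end Pool.Agent.Y855.HP
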