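import Pool.Agent.Y993.HP.Stm

set_option autoImplicit false

namespace Pool.Agent.Y855.HP

open Finset Pool.Agent.Y993.HP

theorem prob : S_PROB := by
  classical
  intro d n N A B I hN hBA
  have hN' : (N : ℝ) ≠ 0 := by exact_mod_cast hN.ne'
  unfold Pr Ex PB
  have h1 : (∑ u : Lab d n N, (if B ⊆ pts A I u then (1 : ℝ) else 0)) =
      ∏ z : Fin d × Fin n, (if z.2 ∈ B.image (fun p => p z.1) then ((I z.1).card : ℝ) else N) := by
    rw [Finset.sum_boole]
    have h2 : (Finset.univ.filter (fun u : Lab d n N => B ⊆ pts A I u)) =
        Fintype.piFinset (fun z : Fin d × Fin n =>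
          if z.2 ∈ B.image (fun p => p z.1) then I z.1 else Finset.univ) := by
      ext u
      simp only [Finset.mem_filter, Finset.mem_univ, true_and, Fintype.mem_piFinset]
      constructor
      · rintro h ⟨i, x⟩
        by_cases hx : x ∈ B.image (fun p => p i)
        · simp only [hx, if_true]
          obtain ⟨p, hp, rfl⟩ := Finset.mem_image.1 hx
          have := h hp
          simp only [pts, Finset.mem_filter] at this
          exact this.2 i
        · simp [hx]
      · intro h p hp
        simp only [pts, Finset.mem_filter]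
        refine ⟨hBA hp, fun i => ?_⟩
        have hi := h (i, p i)
        have hx : p i ∈ B.image (fun p => p i) := Finset.mem_image_of_mem _ hp
        simp only [hx, if_true] at hi
        exact hi
    rw [h2, Fintype.card_piFinset]
    push_cast
    refine Finset.prod_congr rfl fun z _ => ?_
    split_ifs <;> simp
  have h3 : ((Fintype.card (Lab d n N) : ℕ) : ℝ) = ∏ _z : Fin d × Fin n, (N : ℝ) := by
    rw [Fintype.card_fun]
    simp
  refine (congrArg₂ (fun a b : ℝ => a / b) ((?_ : _ = ∏ z : Fin d × Fin n,
    (if z.2 ∈ B.image (fun p => p z.1) then ((I z.1).card : ℝ) else N))) h3).trans ?_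
  · rw [← h1]
    refine Finset.sum_congr rfl fun u _ => ?_
    by_cases hh : B ⊆ pts A I u <;> simp [hh]
  beta_reduce
  rw [← Finset.prod_div_distrib, Fintype.prod_prod_type]
  refine Finset.prod_congr rfl fun i _ => ?_
  have h4 : ∀ x : Fin n, (if x ∈ B.image (fun p => p i) then ((I i).card : ℝ) else (N : ℝ)) / N =
      if x ∈ B.image (fun p => p i) then sd I i else 1 := by
    intro x
    split_ifs
    · rfl
    · exact div_self hN'
  simp only [h4]
  rw [Finset.prod_ite, Finset.prod_const, Finset.prod_const_one, mul_one]
  congr 2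
  ext x
  simp

end Pool.Agent.Y855.HP
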